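import Pool.Agent.H987.Z.StE

/-! F1 (the weights): summability bookkeeping. -/

set_option autoImplicit false
set_option linter.unusedSectionVars false

open scoped BigOperators Topology
open Filter

namespace Pool.Agent.H190.Z987

open Pool.Agent.H987.Z

/-! ### general facts -/

/-- subadditivity of `t ↦ t ^ p`, `0 < p ≤ 1`, for finite sums -/
theorem rpow_fsum_le {α : Type*} (f : α → ℝ) (p : ℝ) (hp : 0 < p) (hp1 : p ≤ 1)
    (hf : ∀ i, 0 ≤ f i) (S : Finset α) : (∑ i ∈ S, f i) ^ p ≤ ∑ i ∈ S, f i ^ p := by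
  classical
  induction S using Finset.induction_on with
  | empty => simp [Real.zero_rpow hp.ne']
  | insert a S ha ih =>
    rw [Finset.sum_insert ha, Finset.sum_insert ha]
    exact (Real.rpow_add_le_add_rpow (hf a) (Finset.sum_nonneg fun i _ => hf i) hp.le hp1).trans
      (add_le_add le_rfl ih)

/-- subadditivity of `t ↦ t ^ p`, `0 < p ≤ 1`, for series -/
theorem rpow_tsum_le (f : ℕ → ℝ) (p : ℝ) (hp : 0 < p) (hp1 : p ≤ 1) (hf : ∀ i, 0 ≤ f i)
    (hs : Summable f) (hs' : Summable fun i => f i ^ p) : (∑' i, f i) ^ p ≤ ∑' i, f i ^ p := by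
  have h1 : Tendsto (fun m => (∑ i ∈ Finset.range m, f i) ^ p) atTop (𝓝 ((∑' i, f i) ^ p)) :=
    (hs.hasSum.tendsto_sum_nat).rpow_const (Or.inr hp.le)
  refine le_of_tendsto h1 (Eventually.of_forall fun m => ?_)
  exact (rpow_fsum_le f p hp hp1 hf _).trans
    (hs'.sum_le_tsum _ fun i _ => Real.rpow_nonneg (hf i) p)

section

variable {d : ℕ} {G : Type} [Group G]

open Classical in
/-- multiplicity -/
noncomputable def cn (s : ℕ → ℕ → G) (N : ℕ → ℕ) (n : ℕ) (x : G) : ℝ :=
  ((Finset.univ.filter fun j : Fin (N n + 1) => s n j = x).card : ℝ)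

theorem cn_nonneg (s : ℕ → ℕ → G) (N : ℕ → ℕ) (n : ℕ) (x : G) : 0 ≤ cn s N n x :=
  Nat.cast_nonneg _

open Classical in
theorem cn_sum (s : ℕ → ℕ → G) (N : ℕ → ℕ) (n : ℕ) (x : G) :
    cn s N n x = ∑ j : Fin (N n + 1), if x = s n j then (1 : ℝ) else 0 := by
  unfold cn
  rw [Finset.card_filter]
  push_cast
  refine Finset.sum_congr rfl fun j _ => ?_
  by_cases h : s n j = x
  · rw [if_pos h, if_pos h.symm]
  · rw [if_neg h, if_neg fun h' => h h'.symm]

theorem cn_hasSum (s : ℕ → ℕ → G) (N : ℕ → ℕ) (n : ℕ) : HasSum (cn s N n) ((N n : ℝ) + 1) := by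
  classical
  have h : HasSum (fun x => ∑ j : Fin (N n + 1), if x = s n j then (1 : ℝ) else 0)
      (∑ _j : Fin (N n + 1), (1 : ℝ)) :=
    hasSum_sum fun j _ => hasSum_ite_eq (s n j) (1 : ℝ)
  have h2 : (∑ _j : Fin (N n + 1), (1 : ℝ)) = (N n : ℝ) + 1 := by simp
  rw [h2] at h
  have e : cn s N n = fun x => ∑ j : Fin (N n + 1), if x = s n j then (1 : ℝ) else 0 :=
    funext fun x => cn_sum s N n x
  rw [e]
  exact h

theorem cn_le (s : ℕ → ℕ → G) (N : ℕ → ℕ) (n : ℕ) (x : G) : cn s N n x ≤ (N n : ℝ) + 1 :=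
  le_hasSum (cn_hasSum s N n) x fun y _ => cn_nonneg s N n y

theorem cn_inv (s : ℕ → ℕ → G) (N : ℕ → ℕ) (hs : ∀ n j, s n j * s n j = 1) (n : ℕ) (x : G) :
    cn s N n x⁻¹ = cn s N n x := by
  classical
  have e : ∀ j : Fin (N n + 1), s n j = x⁻¹ ↔ s n j = x := fun j => by
    have h : (s n j)⁻¹ = s n j := inv_eq_of_mul_eq_one_left (hs n j)
    constructor
    · intro h1
      rw [← h, h1, inv_inv]
    · intro h1
      rw [← h, h1]
  unfold cn
  simp_rw [e]

theorem cn_rpow_le (s : ℕ → ℕ → G) (N : ℕ → ℕ) (n : ℕ) (x : G) (p : ℝ) (hp : 0 < p)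
    (hp1 : p ≤ 1) : cn s N n x ^ p ≤ cn s N n x := by
  classical
  unfold cn
  rcases Nat.eq_zero_or_pos (Finset.univ.filter fun j : Fin (N n + 1) => s n j = x).card with h | h
  · rw [h, Nat.cast_zero, Real.zero_rpow hp.ne']
  · have h1 : (1 : ℝ) ≤ ((Finset.univ.filter fun j : Fin (N n + 1) => s n j = x).card : ℝ) := by
      exact_mod_cast h
    calc _ ≤ ((Finset.univ.filter fun j : Fin (N n + 1) => s n j = x).card : ℝ) ^ (1 : ℝ) :=
          Real.rpow_le_rpow_of_exponent_le h1 hp1
      _ = _ := Real.rpow_one _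

/-- the pairs: nonnegative, summable, with both orders of summation -/
theorem pair_sum (s : ℕ → ℕ → G) (N : ℕ → ℕ) (a : ℕ → ℝ) (ha : ∀ n, 0 ≤ a n)
    (hs : Summable fun n => a n * ((N n : ℝ) + 1)) :
    Summable (fun q : ℕ × G => a q.1 * cn s N q.1 q.2) := by
  rw [summable_prod_of_nonneg fun q => mul_nonneg (ha q.1) (cn_nonneg s N q.1 q.2)]
  refine ⟨fun n => ((cn_hasSum s N n).summable.mul_left (a n)), ?_⟩
  refine hs.congr fun n => ?_
  show a n * ((N n : ℝ) + 1) = ∑' y : G, a n * cn s N n y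
  rw [tsum_mul_left, (cn_hasSum s N n).tsum_eq]

theorem sum_n (s : ℕ → ℕ → G) (N : ℕ → ℕ) (a : ℕ → ℝ) (ha : ∀ n, 0 ≤ a n)
    (hs : Summable fun n => a n * ((N n : ℝ) + 1)) (x : G) :
    Summable (fun n => a n * cn s N n x) :=
  Summable.of_nonneg_of_le (fun n => mul_nonneg (ha n) (cn_nonneg s N n x))
    (fun n => mul_le_mul_of_nonneg_left (cn_le s N n x) (ha n)) hs

/-- the sum over the group of the series is the series of the sums -/
theorem swap_sum (s : ℕ → ℕ → G) (N : ℕ → ℕ) (a : ℕ → ℝ) (ha : ∀ n, 0 ≤ a n)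
    (hs : Summable fun n => a n * ((N n : ℝ) + 1)) :
    HasSum (fun x : G => ∑' n, a n * cn s N n x) (∑' n, a n * ((N n : ℝ) + 1)) := by
  have h := pair_sum s N a ha hs
  have h1 : Summable (fun q : G × ℕ => a q.2 * cn s N q.2 q.1) := h.prod_symm
  have h2 : HasSum (fun x : G => ∑' n, a n * cn s N n x) (∑' q : G × ℕ, a q.2 * cn s N q.2 q.1) :=
    h1.hasSum.prod_fiberwise fun x => (sum_n s N a ha hs x).hasSum
  have h3 : HasSum (fun n : ℕ => ∑' x, a n * cn s N n x) (∑' q : ℕ × G, a q.1 * cn s N q.1 q.2) :=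
    h.hasSum.prod_fiberwise fun n => ((cn_hasSum s N n).summable.mul_left (a n)).hasSum
  have h4 : (∑' q : G × ℕ, a q.2 * cn s N q.2 q.1) = ∑' q : ℕ × G, a q.1 * cn s N q.1 q.2 :=
    (Equiv.prodComm G ℕ).tsum_eq (fun q : ℕ × G => a q.1 * cn s N q.1 q.2)
  have h5 : (∑' n, a n * ((N n : ℝ) + 1)) = ∑' q : ℕ × G, a q.1 * cn s N q.1 q.2 := by
    rw [← h3.tsum_eq]
    refine tsum_congr fun n => ?_
    rw [tsum_mul_left, (cn_hasSum s N n).tsum_eq]
  rw [h5, ← h4]
  exact h2

theorem cv_eq (s : ℕ → ℕ → G) (N : ℕ → ℕ) (a : ℕ → ℝ) (x : G) :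
    cv s N a x = ∑' n, a n * cn s N n x := by
  unfold cv cn
  rfl

theorem bn_eq (ι : Multiplicative (Fin d → ℤ) →* G) (s : ℕ → ℕ → G) (N : ℕ → ℕ) (a : ℕ → ℝ) (n : ℕ)
    (x : G) : bn ι s N a n x = b0 ι x + ∑ k ∈ Finset.range n, a k * cn s N k x := by
  induction n with
  | zero => simp [bn]
  | succ n ih =>
    rw [Finset.sum_range_succ, ← add_assoc, ← ih]
    show bp (bn ι s N a n) (a n) (fun j : Fin (N n + 1) => s n j) x = _
    unfold bp cn
    rfl

/-! ### `b0` -/

theorem b0_sy (ι : Multiplicative (Fin d → ℤ) →* G) : Sy (b0 ι) := by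
  classical
  have hneg : ∀ i : Fin d, ι (Multiplicative.ofAdd (Pi.single i (-1))) =
      (ι (Multiplicative.ofAdd (Pi.single i 1)))⁻¹ := fun i => by
    rw [← map_inv, ← ofAdd_neg, ← Pi.single_neg]
  constructor
  · have hfs : (Function.support fun x => |b0 ι x|).Finite := by
      refine Set.Finite.subset (s := {1} ∪ (Set.range fun i : Fin d =>
        ι (Multiplicative.ofAdd (Pi.single i 1))) ∪ (Set.range fun i : Fin d =>
        ι (Multiplicative.ofAdd (Pi.single i (-1)))))
        (((Set.finite_singleton 1).union (Set.finite_range _)).union (Set.finite_range _)) ?_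
      intro x hx
      by_contra hcon
      apply hx
      simp only [Set.mem_union, Set.mem_singleton_iff, Set.mem_range, not_or, not_exists] at hcon
      obtain ⟨⟨h1, h2⟩, h3⟩ := hcon
      have : b0 ι x = 0 := by
        unfold b0
        rw [if_neg h1]
        have : ∀ i : Fin d, ((if x = ι (Multiplicative.ofAdd (Pi.single i 1)) then (1 : ℝ) else 0) +
            (if x = ι (Multiplicative.ofAdd (Pi.single i (-1))) then 1 else 0)) = 0 := fun i => by
          rw [if_neg fun h => h2 i h.symm, if_neg fun h => h3 i h.symm, add_zero]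
        simp [this]
      simp [this]
    exact summable_of_hasFiniteSupport hfs
  · intro x
    unfold b0
    have e1 : (x⁻¹ = 1) = (x = 1) := by rw [inv_eq_one]
    have e2 : ∀ i : Fin d, (x⁻¹ = ι (Multiplicative.ofAdd (Pi.single i 1))) =
        (x = ι (Multiplicative.ofAdd (Pi.single i (-1)))) := fun i => by
      rw [hneg i, inv_eq_iff_eq_inv]
    have e3 : ∀ i : Fin d, (x⁻¹ = ι (Multiplicative.ofAdd (Pi.single i (-1)))) =
        (x = ι (Multiplicative.ofAdd (Pi.single i 1))) := fun i => by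
      rw [hneg i, inv_inj]
    simp only [e1, e2, e3]
    congr 1
    refine Finset.sum_congr rfl fun i _ => ?_
    rw [add_comm]

/-- the support of `b0` -/
theorem b0_supp (ι : Multiplicative (Fin d → ℤ) →* G) (x : G) (hx : b0 ι x ≠ 0) :
    (∃ i : Fin d, x = ι (Multiplicative.ofAdd (Pi.single i 1)) ∨
      x = ι (Multiplicative.ofAdd (Pi.single i (-1)))) ∨ x = 1 := by
  classical
  by_contra hcon
  apply hx
  simp only [not_or, not_exists] at hcon
  obtain ⟨h2, h1⟩ := hcon
  unfold b0
  rw [if_neg h1]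
  have : ∀ i : Fin d, ((if x = ι (Multiplicative.ofAdd (Pi.single i 1)) then (1 : ℝ) else 0) +
      (if x = ι (Multiplicative.ofAdd (Pi.single i (-1))) then 1 else 0)) = 0 := fun i => by
    rw [if_neg (h2 i).1, if_neg (h2 i).2, add_zero]
  simp [this]

/-- partial sums of the vertical weights are symmetric -/
theorem part_sum (s : ℕ → ℕ → G) (N : ℕ → ℕ) (a : ℕ → ℝ) (n : ℕ) :
    Summable fun x => ∑ k ∈ Finset.range n, a k * cn s N k x :=
  summable_sum fun k _ => (cn_hasSum s N k).summable.mul_left (a k)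

end

theorem wt : S_wt := by
  intro d G _ ι s N a _hι hs ha hsum
  have hsum' : ∀ n, Summable fun k => a (n + k) * ((N (n + k) : ℝ) + 1) := fun n => by
    have := (summable_nat_add_iff (f := fun k => a k * ((N k : ℝ) + 1)) n).2 hsum
    refine this.congr fun k => ?_
    rw [add_comm]
  have hcv0 : ∀ x, 0 ≤ cv s N a x := fun x => by
    rw [cv_eq]
    exact tsum_nonneg fun n => mul_nonneg (ha n) (cn_nonneg s N n x)
  have hcvs : HasSum (fun x => cv s N a x) (∑' n, a n * ((N n : ℝ) + 1)) := by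
    have := swap_sum s N a ha hsum
    simpa only [cv_eq] using this
  have hcvsy : Sy (cv s N a) := by
    constructor
    · refine hcvs.summable.congr fun x => ?_
      rw [abs_of_nonneg (hcv0 x)]
    · intro x
      rw [cv_eq, cv_eq]
      exact tsum_congr fun n => by rw [cn_inv s N hs]
  have hb0 : Sy (b0 ι) := b0_sy ι
  have hpart : ∀ n x, 0 ≤ ∑ k ∈ Finset.range n, a k * cn s N k x := fun n x =>
    Finset.sum_nonneg fun k _ => mul_nonneg (ha k) (cn_nonneg s N k x)
  -- the difference `bi - bn`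
  have hdiff : ∀ n x, bi ι s N a x - bn ι s N a n x = ∑' k, a (n + k) * cn s N (n + k) x := by
    intro n x
    have h1 := (sum_n s N a ha hsum x).sum_add_tsum_nat_add n
    unfold bi
    rw [bn_eq, cv_eq, ← h1]
    have : ∀ k, a (k + n) * cn s N (k + n) x = a (n + k) * cn s N (n + k) x := fun k => by
      rw [add_comm]
    simp only [this]
    ring
  refine ⟨fun n => ?_, ?_, hcvsy, hcv0, fun n => ?_, fun n => ?_, fun n x hx => ?_, fun n => ?_,
    hcvs.tsum_eq.le, fun hp p hp0 => ?_⟩
  · constructor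
    · refine Summable.of_nonneg_of_le (fun x => abs_nonneg _) (fun x => ?_)
        (hb0.sm.add (part_sum s N a n))
      rw [bn_eq]
      refine (abs_add_le _ _).trans ?_
      rw [abs_of_nonneg (hpart n x)]
    · intro x
      rw [bn_eq, bn_eq, hb0.sy]
      congr 1
      exact Finset.sum_congr rfl fun k _ => by rw [cn_inv s N hs]
  · constructor
    · refine Summable.of_nonneg_of_le (fun x => abs_nonneg _) (fun x => ?_)
        (hb0.sm.add hcvsy.sm)
      unfold bi
      exact abs_add_le _ _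
    · intro x
      unfold bi
      rw [hb0.sy, hcvsy.sy]
  · -- N1 (bn - b0)
    unfold N1
    have e : ∀ x, |bn ι s N a n x - b0 ι x| = ∑ k ∈ Finset.range n, a k * cn s N k x := fun x => by
      rw [bn_eq, add_sub_cancel_left, abs_of_nonneg (hpart n x)]
    simp only [e]
    have h1 : HasSum (fun x => ∑ k ∈ Finset.range n, a k * cn s N k x)
        (∑ k ∈ Finset.range n, a k * ((N k : ℝ) + 1)) :=
      hasSum_sum fun k _ => (cn_hasSum s N k).mul_left (a k)
    rw [h1.tsum_eq]
    exact hsum.sum_le_tsum _ fun k _ => mul_nonneg (ha k) (by positivity)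
  · -- N1 (bi - bn)
    unfold N1
    have h2 := swap_sum (fun k => s (n + k)) (fun k => N (n + k)) (fun k => a (n + k))
      (fun k => ha _) (hsum' n)
    have e : ∀ x, |bi ι s N a x - bn ι s N a n x| =
        ∑' k, a (n + k) * cn (fun k => s (n + k)) (fun k => N (n + k)) k x := fun x => by
      rw [hdiff, abs_of_nonneg (tsum_nonneg fun k => mul_nonneg (ha _) (cn_nonneg s N _ x))]
      rfl
    simp only [e]
    exact h2.tsum_eq.le
  · -- support
    by_cases h0 : b0 ι x = 0
    · have h1 : ∑ k ∈ Finset.range n, a k * cn s N k x ≠ 0 := by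
        intro h
        apply hx
        rw [bn_eq, h0, h, add_zero]
      obtain ⟨k, hk, hk2⟩ := Finset.exists_ne_zero_of_sum_ne_zero h1
      have h3 : cn s N k x ≠ 0 := fun h => hk2 (by rw [h, mul_zero])
      left
      right
      refine ⟨k, Finset.mem_range.1 hk, ?_⟩
      classical
      unfold cn at h3
      have h4 : (Finset.univ.filter fun j : Fin (N k + 1) => s k j = x).Nonempty := by
        rw [Finset.nonempty_iff_ne_empty]
        intro h
        apply h3
        rw [Nat.cast_eq_zero, Finset.card_eq_zero]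
        convert h
      obtain ⟨j, hj⟩ := h4
      exact ⟨j, j.2, ((Finset.mem_filter.1 hj).2).symm⟩
    · rcases b0_supp ι x h0 with h | h
      · left
        left
        exact h
      · right
        exact h
  · -- finiteness
    unfold En
    refine Set.Finite.union ?_ ?_
    · refine Set.Finite.subset (s := (Set.range fun i : Fin d =>
        ι (Multiplicative.ofAdd (Pi.single i 1))) ∪ (Set.range fun i : Fin d =>
        ι (Multiplicative.ofAdd (Pi.single i (-1)))))
        ((Set.finite_range _).union (Set.finite_range _)) ?_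
      rintro g ⟨i, h | h⟩
      · exact Or.inl ⟨i, h.symm⟩
      · exact Or.inr ⟨i, h.symm⟩
    · refine Set.Finite.subset (s := ⋃ i ∈ Finset.range n, (fun j => s i j) ''
        (Finset.range (N i + 1) : Set ℕ)) ?_ ?_
      · exact Set.Finite.biUnion (Finset.finite_toSet _) fun i _ =>
          (Finset.finite_toSet _).image _
      · rintro g ⟨i, hi, j, hj, h⟩
        simp only [Set.mem_iUnion]
        exact ⟨i, Finset.mem_range.2 hi, j, Finset.mem_coe.2 (Finset.mem_range.2 hj), h.symm⟩
  · -- powers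
    rcases le_total p 1 with hp1 | hp1
    · have h1 : Summable fun n => a n ^ p * ((N n : ℝ) + 1) := hp p hp0
      have h2 := swap_sum s N (fun n => a n ^ p) (fun n => Real.rpow_nonneg (ha n) p) h1
      refine Summable.of_nonneg_of_le (fun x => Real.rpow_nonneg (hcv0 x) p) (fun x => ?_)
        h2.summable
      have h3 := sum_n s N (fun n => a n ^ p) (fun n => Real.rpow_nonneg (ha n) p) h1 x
      have h4 : ∀ n, (a n * cn s N n x) ^ p ≤ a n ^ p * cn s N n x := fun n => by
        rw [Real.mul_rpow (ha n) (cn_nonneg s N n x)]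
        exact mul_le_mul_of_nonneg_left (cn_rpow_le s N n x p hp0 hp1)
          (Real.rpow_nonneg (ha n) p)
      have h5 : Summable fun n => (a n * cn s N n x) ^ p :=
        Summable.of_nonneg_of_le
          (fun n => Real.rpow_nonneg (mul_nonneg (ha n) (cn_nonneg s N n x)) p) h4 h3
      rw [cv_eq]
      exact (rpow_tsum_le _ p hp0 hp1 (fun n => mul_nonneg (ha n) (cn_nonneg s N n x))
        (sum_n s N a ha hsum x) h5).trans (h5.tsum_le_tsum h4 h3)
    · have hB : ∀ x, cv s N a x ≤ ∑' n, a n * ((N n : ℝ) + 1) := fun x =>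
        le_hasSum hcvs x fun y _ => hcv0 y
      refine Summable.of_nonneg_of_le (fun x => Real.rpow_nonneg (hcv0 x) p) (fun x => ?_)
        (hcvs.summable.mul_left ((∑' n, a n * ((N n : ℝ) + 1)) ^ (p - 1)))
      rcases eq_or_lt_of_le (hcv0 x) with h | h
      · rw [← h, Real.zero_rpow hp0.ne', mul_zero]
      · calc cv s N a x ^ p = cv s N a x ^ (p - 1) * cv s N a x := by
              rw [← Real.rpow_add_one h.ne']
              congr 1
              ring
          _ ≤ _ := mul_le_mul_of_nonneg_right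
              (Real.rpow_le_rpow (hcv0 x) (hB x) (by linarith)) (hcv0 x)

end Pool.Agent.H190.Z987

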